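import Pool.Graph.R_seed8.Helper75.FourMain

set_option autoImplicit false

/-! General facts on the profinite completion of the fundamental group of the sphere with `n`
punctures. -/

namespace Pool.Agent.H26.LG

open Pool.Agent.Helper75.Defs Pool.Agent.Helper75.F2Defs Pool.Agent.Helper75.Basic
  Pool.Agent.Helper75.F2Lemmas Pool.Agent.Helper75.LacDefs

variable {n : ℕ}

/-- the discrete loops -/
def dl (i : Fin n) : SurfGroup 0 n := PresentedGroup.of (rels := {relator 0 n}) (Sum.inr i)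

lemma loop_eq (i : Fin n) : (loop i : PiHat 0 n) = eta (SurfGroup 0 n) (dl i) := rfl

lemma relator0 : relator 0 n = (List.ofFn fun j : Fin n => FreeGroup.of (Sum.inr j)).prod := by
  simp [relator]

lemma exists_disc {Q : Type} [Group Q] (q : Fin n → Q) (h : (List.ofFn q).prod = 1) :
    ∃ f : SurfGroup 0 n →* Q, ∀ i, f (dl i) = q i := by
  let f : ((Fin 0 ⊕ Fin 0) ⊕ Fin n) → Q := Sum.elim (Sum.elim Fin.elim0 Fin.elim0) q
  have hr : ∀ r ∈ ({relator 0 n} : Set (FreeGroup ((Fin 0 ⊕ Fin 0) ⊕ Fin n))),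
      FreeGroup.lift f r = 1 := by
    intro r hr
    rw [Set.mem_singleton_iff] at hr
    rw [hr, relator0, map_list_prod, List.map_ofFn]
    have : (⇑(FreeGroup.lift f) ∘ fun j : Fin n => FreeGroup.of (Sum.inr j)) = q := by
      funext j
      simp [f]
    rw [this]
    exact h
  exact ⟨PresentedGroup.toGroup hr, fun i => PresentedGroup.toGroup.of hr⟩

lemma disc_ext {Q : Type} [Group Q] {f g : SurfGroup 0 n →* Q} (h : ∀ i, f (dl i) = g (dl i)) :
    f = g := by
  apply PresentedGroup.ext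
  rintro ((x | x) | i)
  · exact x.elim0
  · exact x.elim0
  · exact h i

lemma dl_prod : (List.ofFn fun i : Fin n => dl i).prod = 1 := by
  have h : (PresentedGroup.mk {relator 0 n} (relator 0 n)) = 1 :=
    PresentedGroup.one_of_mem (Set.mem_singleton _)
  have h2 : (PresentedGroup.mk {relator 0 n}
      (List.ofFn fun j : Fin n => FreeGroup.of (Sum.inr j)).prod) = 1 := by
    rw [← relator0]; exact h
  rw [map_list_prod, List.map_ofFn] at h2
  exact h2

lemma loop_prod : (List.ofFn fun i : Fin n => (loop i : PiHat 0 n)).prod = 1 := by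
  have h := congrArg (eta (SurfGroup 0 n)) (dl_prod (n := n))
  rw [map_list_prod, List.map_ofFn, map_one] at h
  exact h

lemma P_lift {Q : Type} [Group Q] [TopologicalSpace Q]
    [IsTopologicalGroup Q] [CompactSpace Q] [TotallyDisconnectedSpace Q] (q : Fin n → Q)
    (h : (List.ofFn q).prod = 1) : ∃ f : PiHat 0 n →ₜ* Q, ∀ i, f (loop i) = q i := by
  obtain ⟨f, hf⟩ := exists_disc q h
  obtain ⟨φ, hφ⟩ := exists_lift f
  exact ⟨φ, fun i => by rw [loop_eq, hφ, hf]⟩

lemma P_lift_finite {H : Type} [Group H] [Finite H] (q : Fin n → H)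
    (h : (List.ofFn q).prod = 1) :
    ∃ f : PiHat 0 n →* H, (∀ i, f (loop i) = q i) ∧ IsOpen (f.ker : Set (PiHat 0 n)) := by
  obtain ⟨f, hf⟩ := exists_disc q h
  obtain ⟨φ, hφ, ho⟩ := exists_lift_finite f
  exact ⟨φ, fun i => by rw [loop_eq, hφ, hf], ho⟩

lemma P_ext {Q : Type} [Group Q] [TopologicalSpace Q] [T2Space Q] {f g : PiHat 0 n →ₜ* Q}
    (h : ∀ i, f (loop i) = g (loop i)) : f = g := by
  apply hom_ext
  intro a
  have : (f.toMonoidHom.comp (eta (SurfGroup 0 n))) = (g.toMonoidHom.comp (eta _)) := by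
    apply disc_ext
    intro i
    exact h i
  exact DFunLike.congr_fun this a

lemma P_ext_finite {H : Type} [Group H] {f g : PiHat 0 n →* H}
    (hf : IsOpen (f.ker : Set (PiHat 0 n))) (hg : IsOpen (g.ker : Set (PiHat 0 n)))
    (h : ∀ i, f (loop i) = g (loop i)) : f = g := by
  apply hom_ext_finite hf hg
  intro a
  have : (f.comp (eta (SurfGroup 0 n))) = (g.comp (eta _)) := by
    apply disc_ext
    intro i
    exact h i
  exact DFunLike.congr_fun this a

lemma exists_F2 {Q : Type} [Group Q] [TopologicalSpace Q]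
    [IsTopologicalGroup Q] [CompactSpace Q] [TotallyDisconnectedSpace Q] (a b : Q) :
    ∃ φ : F2 →ₜ* Q, φ X = a ∧ φ Y = b := Pool.Agent.Helper75.Four.exists_F2 a b

/-- `X ↦ l_0`, `Y ↦ l_1` -/
noncomputable def jA (m : ℕ) : F2 →ₜ* PiHat 0 (m + 2) :=
  (exists_F2 (loop 0 : PiHat 0 (m + 2)) (loop 1)).choose
lemma jA_X (m : ℕ) : jA m X = loop 0 :=
  (exists_F2 (loop 0 : PiHat 0 (m + 2)) (loop 1)).choose_spec.1
lemma jA_Y (m : ℕ) : jA m Y = loop 1 :=
  (exists_F2 (loop 0 : PiHat 0 (m + 2)) (loop 1)).choose_spec.2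

/-- `X ↦ l_2`, `Y ↦ l_3` -/
noncomputable def jC (m : ℕ) : F2 →ₜ* PiHat 0 (m + 4) :=
  (exists_F2 (loop (0 : Fin (m + 2)).succ.succ : PiHat 0 (m + 4))
    (loop (0 : Fin (m + 1)).succ.succ.succ)).choose
lemma jC_X (m : ℕ) : jC m X = loop (0 : Fin (m + 2)).succ.succ :=
  (exists_F2 (loop (0 : Fin (m + 2)).succ.succ : PiHat 0 (m + 4))
    (loop (0 : Fin (m + 1)).succ.succ.succ)).choose_spec.1
lemma jC_Y (m : ℕ) : jC m Y = loop (0 : Fin (m + 1)).succ.succ.succ :=
  (exists_F2 (loop (0 : Fin (m + 2)).succ.succ : PiHat 0 (m + 4))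
    (loop (0 : Fin (m + 1)).succ.succ.succ)).choose_spec.2

/-- `X ↦ l_0`, `Y ↦ l_1` -/
noncomputable def jB (m : ℕ) : F2 →ₜ* PiHat 0 (m + 4) := jA (m + 2)
lemma jB_X (m : ℕ) : jB m X = loop 0 := jA_X (m + 2)
lemma jB_Y (m : ℕ) : jB m Y = loop (0 : Fin (m + 3)).succ := by
  rw [Fin.succ_zero_eq_one]; exact jA_Y (m + 2)

/-- conjugacy -/
def Cj {G : Type} [Group G] (a b : G) : Prop := ∃ c, a = c * b * c⁻¹

lemma Cj.refl {G : Type} [Group G] (a : G) : Cj a a := ⟨1, by group⟩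
lemma Cj.trans {G : Type} [Group G] {a b c : G} (h1 : Cj a b) (h2 : Cj b c) : Cj a c := by
  obtain ⟨x, rfl⟩ := h1
  obtain ⟨y, rfl⟩ := h2
  exact ⟨x * y, by group⟩
lemma Cj.symm {G : Type} [Group G] {a b : G} (h1 : Cj a b) : Cj b a := by
  obtain ⟨x, rfl⟩ := h1
  exact ⟨x⁻¹, by group⟩
lemma Cj.map {G H F : Type} [Group G] [Group H] [FunLike F G H] [MonoidHomClass F G H]
    {a b : G} (h1 : Cj a b) (f : F) : Cj (f a) (f b) := by
  obtain ⟨x, rfl⟩ := h1
  exact ⟨f x, by rw [map_mul, map_mul, map_inv]⟩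
lemma Cj.conj {G : Type} [Group G] (c b : G) : Cj (c * b * c⁻¹) b := ⟨c, rfl⟩
lemma Cj.pow {G : Type} [Group G] [TopologicalSpace G] [IsTopologicalGroup G] [CompactSpace G]
    [TotallyDisconnectedSpace G] {a b : G} (h1 : Cj a b) (l : Zhat) : Cj (ppow a l) (ppow b l) := by
  obtain ⟨x, rfl⟩ := h1
  exact ⟨x, ppow_conj _ _ _⟩

end Pool.Agent.H26.LG
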