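import Pool.Agent.H26.LG.Forget

set_option autoImplicit false

/-! Reduction to four punctures. -/

namespace Pool.Agent.H26.LG

open Pool.Agent.Helper75.Defs Pool.Agent.Helper75.F2Defs Pool.Agent.Helper75.Basic
  Pool.Agent.Helper75.F2Lemmas Pool.Agent.Helper75.LacDefs Pool.Agent.Helper75.Core
  Pool.Agent.Helper75.CoreFinal Pool.Agent.Helper75.Four Pool.Agent.Helper75.FourMain
  Pool.Agent.Helper75.Unit3

/-- the test values in `(ℤ/3)^k` -/
def tq (k : ℕ) (i : Fin (k + 1)) : Multiplicative (Fin k → ZMod 3) :=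
  Fin.lastCases (Multiplicative.ofAdd fun _ => -1) (fun j => Multiplicative.ofAdd (Pi.single j 1)) i

lemma tq_castSucc {k : ℕ} (i : Fin k) : tq k i.castSucc = Multiplicative.ofAdd (Pi.single i 1) := by
  unfold tq; rw [Fin.lastCases_castSucc]
lemma tq_last {k : ℕ} : tq k (Fin.last k) = Multiplicative.ofAdd fun _ => -1 := by
  unfold tq; rw [Fin.lastCases_last]

lemma tq_prod (k : ℕ) : (List.ofFn (tq k)).prod = 1 := by
  rw [ofFn_prod_succ']
  have h1 : (List.ofFn fun i : Fin k => tq k i.castSucc).prod =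
      Multiplicative.ofAdd (fun _ => (1 : ZMod 3)) := by
    rw [List.prod_ofFn]
    have : (fun i : Fin k => tq k i.castSucc) =
        fun i => Multiplicative.ofAdd (Pi.single i (1 : ZMod 3)) := by
      funext i; exact tq_castSucc i
    rw [this, ← ofAdd_sum]
    congr 1
    funext j
    rw [Finset.sum_apply]
    simp [Pi.single_apply]
  rw [h1, tq_last, ← ofAdd_add]
  rfl

lemma tq_pow {k : ℕ} (x : Multiplicative (Fin k → ZMod 3)) : x ^ ((3 : ℕ+) : ℕ) = 1 := by
  show Multiplicative.ofAdd (((3 : ℕ+) : ℕ) • x.toAdd) = 1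
  have : ((3 : ℕ+) : ℕ) • x.toAdd = 0 := by
    funext j
    show (3 : ℕ) • (x.toAdd j) = 0
    rw [nsmul_eq_mul]
    have : ((3 : ℕ) : ZMod 3) = 0 := by decide
    rw [this, zero_mul]
  rw [this]
  rfl

lemma tq_decide {k : ℕ} (i j : Fin (k + 2 + 1)) (m : ℕ) (h : tq (k + 2) j ^ m = tq (k + 2) i) :
    j = i := by
  have key : ∀ l : Fin (k + 2), (m : ZMod 3) * (tq (k + 2) j).toAdd l = (tq (k + 2) i).toAdd l := by
    intro l
    rw [← h]
    show _ = (m • (tq (k + 2) j).toAdd) l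
    rw [Pi.smul_apply, nsmul_eq_mul]
  have ex : ∀ a : Fin (k + 2), ∃ b : Fin (k + 2), b ≠ a := fun a => exists_ne a
  revert key
  clear h
  refine Fin.lastCases ?_ (fun a => ?_) i <;> refine Fin.lastCases ?_ (fun b => ?_) j <;> intro key
  · rfl
  · exfalso
    obtain ⟨c, hc⟩ := ex b
    have h1 := key c
    rw [tq_castSucc, tq_last] at h1
    simp only [toAdd_ofAdd, Pi.single_apply, if_neg hc, mul_zero] at h1
    revert h1; decide
  · exfalso
    obtain ⟨c, hc⟩ := ex a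
    have h1 := key c
    have h2 := key a
    rw [tq_castSucc, tq_last] at h1 h2
    simp only [toAdd_ofAdd, Pi.single_apply, if_neg hc, if_true] at h1 h2
    rw [h1] at h2
    revert h2; decide
  · by_contra hne
    have h1 := key a
    rw [tq_castSucc, tq_castSucc] at h1
    have hab : a ≠ b := fun h => hne (by rw [h])
    simp only [toAdd_ofAdd, Pi.single_apply, if_neg hab, mul_zero, if_true] at h1
    revert h1; decide

lemma exists_T (k : ℕ) : ∃ E : PiHat 0 (k + 1) →* Multiplicative (Fin k → ZMod 3),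
    (∀ i, E (loop i) = tq k i) ∧ IsOpen (E.ker : Set (PiHat 0 (k + 1))) :=
  P_lift_finite _ (tq_prod k)

lemma comm_conj {G A : Type} [Group G] [CommGroup A] (E : G →* A) (a b : G) :
    E (a * b * a⁻¹) = E b := by
  rw [map_mul, map_mul, map_inv, mul_comm (E a), mul_assoc, mul_inv_cancel, mul_one]

/-- an automorphism which agrees with a pure one on the test is pure -/
lemma pure_of_test {k : ℕ} (E : PiHat 0 (k + 2 + 1) →* Multiplicative (Fin (k + 2) → ZMod 3))
    (hE : ∀ i, E (loop i) = tq (k + 2) i) (hEo : IsOpen (E.ker : Set (PiHat 0 (k + 2 + 1))))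
    (W ψ : AutLac 0 (k + 2 + 1)) (hW : PureWith 1 W.toFun)
    (h : ∀ a, E (W.toFun a) = E (ψ.toFun a)) : ∃ μ : Zhatˣ, PureWith (μ : Zhat) ψ.toFun := by
  obtain ⟨μ, hμ, σ, c, hc⟩ := ψ.lac
  obtain ⟨μ, rfl⟩ := exists_unit μ hμ
  refine ⟨μ, fun i => ?_⟩
  obtain ⟨d, hd⟩ := hW i
  have h1 := h (loop i)
  rw [hd, hc i, comm_conj, comm_conj, Pool.Agent.Helper75.Basic.ppow_one,
    fin_ppow E hEo (loop (σ i)) μ 3 (tq_pow _), hE, hE] at h1
  have h2 := tq_decide i (σ i) _ h1.symm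
  have h3 := hc i
  rw [h2] at h3
  exact ⟨c i, h3⟩

/-- the statement which will be refuted by filling in punctures -/
def Bad (α β : F2 →ₜ* F2) (m : ℕ) : Prop :=
  ∃ W : AutLac 0 (m + 2), InClosure W ∧ PureWith 1 W.toFun ∧
    ∃ z, ∀ a, W.toFun (jA m (β a)) = z * jA m (α a) * z⁻¹

lemma kp_jA (m : ℕ) (w : F2) : (kp : PiHat 0 (m + 2 + 1) →ₜ* PiHat 0 (m + 2)) (jA (m + 1) w) =
    jA m w := by
  have : (kp : PiHat 0 (m + 2 + 1) →ₜ* PiHat 0 (m + 2)).comp (jA (m + 1)) = jA m := by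
    apply hom_ext_XY
    · show kp (jA (m + 1) X) = jA m X
      rw [jA_X, jA_X]
      exact kp_castSucc (n := m + 2) 0
    · show kp (jA (m + 1) Y) = jA m Y
      rw [jA_Y, jA_Y]
      exact kp_castSucc (n := m + 2) 1
  exact DFunLike.congr_fun this w

lemma Bad.step {α β : F2 →ₜ* F2} {m : ℕ} (h : Bad α β (m + 1)) : Bad α β m := by
  obtain ⟨W, hW, hp, z, hz⟩ := h
  obtain ⟨V, hV1, hV2, hV3⟩ := exists_indAut (n := m + 2) (μ := 1) W (by
    rw [Units.val_one]; exact hp)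
  rw [Units.val_one] at hV3
  obtain ⟨E, hE, hEo⟩ := exists_T (m + 2)
  refine ⟨V, ?_, hV3, kp (n := m + 2) z, fun a => ?_⟩
  · intro N
    have hNo : IsOpen ((N.toSubgroup.comap
        (kp : PiHat 0 (m + 2 + 1) →ₜ* PiHat 0 (m + 2)).toMonoidHom : Subgroup _) :
        Set (PiHat 0 (m + 2 + 1))) :=
      N.isOpen'.preimage (kp : PiHat 0 (m + 2 + 1) →ₜ* PiHat 0 (m + 2)).continuous_toFun
    let N' : OpenNormalSubgroup (PiHat 0 (m + 2 + 1)) :=
      { toSubgroup := N.toSubgroup.comap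
          (kp : PiHat 0 (m + 2 + 1) →ₜ* PiHat 0 (m + 2)).toMonoidHom ⊓ E.ker
        isOpen' := hNo.inter hEo
        isNormal' := by
          have : (N.toSubgroup.comap
            (kp : PiHat 0 (m + 2 + 1) →ₜ* PiHat 0 (m + 2)).toMonoidHom).Normal :=
            Subgroup.Normal.comap N.isNormal' _
          infer_instance }
    obtain ⟨ψ, hψ, hψN⟩ := hW N'
    have h1 : ∀ a, kp (n := m + 2) (W.toFun a * (ψ.toFun a)⁻¹) ∈ N.toSubgroup :=
      fun a => (hψN a).1
    have h2 : ∀ a, E (W.toFun a) = E (ψ.toFun a) := by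
      intro a
      have h3 : E (W.toFun a * (ψ.toFun a)⁻¹) = 1 := (hψN a).2
      rwa [map_mul, map_inv, mul_inv_eq_one] at h3
    obtain ⟨μ, hμ⟩ := pure_of_test E hE hEo W ψ hp h2
    obtain ⟨ψ', p1, p2, -⟩ := exists_indAut (n := m + 2) ψ hμ
    refine ⟨ψ', isDisc_ind p1 p2 hψ, fun a => ?_⟩
    obtain ⟨b, rfl⟩ := kp_surjective a
    rw [hV1, p1, ← map_inv, ← map_mul]
    exact h1 b
  · have h1 := congrArg (kp (n := m + 2)) (hz a)
    rw [map_mul, map_mul, map_inv] at h1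
    rw [← kp_jA m (β a), ← kp_jA m (α a), hV1]
    exact h1

lemma Bad.two {α β : F2 →ₜ* F2} : ∀ {m : ℕ}, Bad α β (m + 2) → Bad α β 2 := by
  intro m
  induction m with
  | zero => exact id
  | succ m ih => exact fun h => ih (Bad.step (m := m + 2) h)

lemma not_bad_two (α : F2 →ₜ* F2) (u v : F2)
    (hX : α X = u * ppow X lamUnit * u⁻¹) (hY : α Y = v * ppow Y lamUnit * v⁻¹)
    (hXY : α (X * Y) = ppow (X * Y) lamUnit) : ¬ Bad α (tau.comp (α.comp tau)) 2 := by
  rintro ⟨W, hW, hp, z, hz⟩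
  set β : F2 →ₜ* F2 := tau.comp (α.comp tau) with hβdef
  have hiA : jA 2 = iA := by
    apply hom_ext_XY
    · rw [jA_X, iA_X]; rfl
    · rw [jA_Y, iA_Y]; rfl
  rw [hiA] at hz
  obtain ⟨E, hE, hEo⟩ := exists_E
  have hEW : ∀ a, E (W.toFun a) = E a := by
    have : E.comp W.toC.toMonoidHom = E := by
      apply P4_ext_finite
      · have : ((E.comp W.toC.toMonoidHom).ker : Set P4) = W.toC ⁻¹' (E.ker : Set P4) := rfl
        rw [this]
        exact hEo.preimage W.continuous_toFun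
      · exact hEo
      · intro i
        obtain ⟨c, hc⟩ := hp i
        show E (W.toFun (loop i)) = E (loop i)
        rw [hc, comm_conj, Pool.Agent.Helper75.Basic.ppow_one]
    exact fun a => DFunLike.congr_fun this a
  obtain ⟨κ, k0, k1, k3, kd⟩ := exists_kap
  have hκA : ∀ a, κ (iA a) = a := by
    have : κ.comp iA = ContinuousMonoidHom.id F2 := by
      apply hom_ext_XY
      · show κ (iA X) = X
        rw [iA_X, k0]
      · show κ (iA Y) = Y
        rw [iA_Y, k1]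
    exact fun a => DFunLike.congr_fun this a
  refine no_conj lamUnit res_lamUnit α u v hX hY hXY ?_
  intro H _ _ ρ hρ
  have hρκ : IsOpen ((ρ.comp κ.toMonoidHom).ker : Set P4) := by
    have : ((ρ.comp κ.toMonoidHom).ker : Set P4) = κ ⁻¹' (ρ.ker : Set F2) := rfl
    rw [this]
    exact hρ.preimage κ.continuous_toFun
  let N : OpenNormalSubgroup P4 :=
    { toSubgroup := ((ρ.comp κ.toMonoidHom).prod E).ker
      isOpen' := isOpen_ker_prod _ _ hρκ hEo
      isNormal' := inferInstance }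
  obtain ⟨W0, hW0, hN⟩ := hW N
  have hN2 : ∀ a, ρ (κ (W.toFun a)) = ρ (κ (W0.toFun a)) ∧ E (W.toFun a) = E (W0.toFun a) := by
    intro a
    have h1 : W.toFun a * (W0.toFun a)⁻¹ ∈ ((ρ.comp κ.toMonoidHom).prod E).ker := hN a
    rw [MonoidHom.mem_ker, MonoidHom.prod_apply, Prod.mk_eq_one] at h1
    obtain ⟨h2, h3⟩ := h1
    rw [map_mul, map_inv, mul_inv_eq_one] at h2 h3
    exact ⟨h2, h3⟩
  have hW0E : ∀ a, E (W0.toFun a) = E a := fun a => by rw [← (hN2 a).2, hEW]
  refine ⟨κ.comp ((W0.toC).comp iA), (κ z)⁻¹,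
    good_disc κ k0 k1 k3 kd E hE hEo W0 hW0 hW0E, fun a => ?_⟩
  have h1 : κ (W.toFun (iA (β a))) = κ z * α a * (κ z)⁻¹ := by
    rw [hz, map_mul, map_mul, map_inv, hκA]
  have h2 : α a = (κ z)⁻¹ * κ (W.toFun (iA (β a))) * κ z := by
    rw [h1]; group
  have h3 : ρ (κ (W.toFun (iA (β a)))) = ρ (κ (W0.toFun (iA (β a)))) := (hN2 _).1
  conv_lhs => rw [h2, map_mul, map_mul, h3]
  rw [map_inv, inv_inv]
  rfl

lemma not_bad (α : F2 →ₜ* F2) (u v : F2)
    (hX : α X = u * ppow X lamUnit * u⁻¹) (hY : α Y = v * ppow Y lamUnit * v⁻¹)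
    (hXY : α (X * Y) = ppow (X * Y) lamUnit) (m : ℕ) :
    ¬ Bad α (tau.comp (α.comp tau)) (m + 2) :=
  fun h => not_bad_two α u v hX hY hXY h.two

end Pool.Agent.H26.LG
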