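import Pool.Agent.H26.LG.Main

set_option autoImplicit false

/-! The plus-part is not normal for any type `(0, n)`, `n ≥ 4`. -/

namespace Pool.Agent.H26.LG

open Pool.Agent.Helper75.Defs Pool.Agent.Helper75.F2Defs Pool.Agent.Helper75.Basic
  Pool.Agent.Helper75.F2Lemmas Pool.Agent.Helper75.LacDefs Pool.Agent.Helper75.Core
  Pool.Agent.Helper75.Unit3 Pool.Agent.Helper75.FourMain

/-- an automorphism of pure type as an element of `AutLac` -/
def PA.toAut {k : ℕ} {l : Zhatˣ} (p : PA k l) : AutLac 0 k where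
  toFun := p.f
  invFun := p.f'
  left_inv := p.h2
  right_inv := p.h1
  map_mul := map_mul p.f
  continuous_toFun := p.f.continuous_toFun
  continuous_invFun := p.f'.continuous_toFun
  lac := ⟨l, isUnitZ_unit _, PureWith.lac (fun i => ⟨p.c i, p.hf i⟩)⟩

/-- The plus-part of the standard discretification of the type `(0, n)` is not normal, `n ≥ 4`. -/
theorem not_normal (m : ℕ) : ¬ (TPlus 0 (m + 4)).Normal := by
  intro hnormal
  obtain ⟨α, u, v, hX, hY, hXY, hbij⟩ := Pool.Agent.Helper75.Exist2.exists_auto lamUnit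
  obtain ⟨hβ, hcX, hcY⟩ := beta_props α u v lamUnit hX hY hXY
  have bβ : Function.Bijective (tau.comp (α.comp tau)) :=
    tau_bijective.comp (hbij.comp tau_bijective)
  have hbad := not_bad α u v hX hY hXY m
  set β : F2 →ₜ* F2 := tau.comp (α.comp tau) with hβdef
  have hA : Au lamUnit α := ⟨⟨u, hX⟩, ⟨v, hY⟩, hXY, hbij⟩
  have hB : Au lamUnit β := ⟨hcX, hcY, hβ, bβ⟩
  obtain ⟨p⟩ := exists_PA lamUnit m
  obtain ⟨q, qB, qC⟩ := exists_split p hA hB
  obtain ⟨s, sD, s1, st, st', sC, sB⟩ := exists_twistL m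
  set Φ : AutLac 0 (m + 4) := q.toAut with hΦ
  have hsT : cls s ∈ TPlus 0 (m + 4) := ⟨s, sD.inClosure, s1, rfl⟩
  have hUT : cls (Φ * s * Φ⁻¹ * s⁻¹) ∈ TPlus 0 (m + 4) := by
    show cls Φ * cls s * (cls Φ)⁻¹ * (cls s)⁻¹ ∈ TPlus 0 (m + 4)
    exact mul_mem (hnormal.conj_mem _ hsT _) (inv_mem hsT)
  obtain ⟨W, hWbar, hWlac, hWeq⟩ := hUT
  have hWeq2 : W⁻¹ * (Φ * s * Φ⁻¹ * s⁻¹) ∈ InnLac 0 (m + 4) := QuotientGroup.eq.1 hWeq
  obtain ⟨g', hg'⟩ := hWeq2
  set U : AutLac 0 (m + 4) := Φ * s * Φ⁻¹ * s⁻¹ with hU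
  have hUW : ∀ a, U.toFun a = W.toFun (g' * a * g'⁻¹) := by
    intro a
    have h2 : W.invFun (U.toFun a) = g' * a * g'⁻¹ := hg' a
    rw [← h2]
    exact (W.right_inv (U.toFun a)).symm
  have hUapp : ∀ a, U.toC a = q.f (s.toC (q.f' (s.toCinv a))) := fun a => rfl
  have hWU : ∀ a, W.toFun a = (U.toC g')⁻¹ * U.toC a * U.toC g' := by
    intro a
    have h1 := hUW (g'⁻¹ * a * g')
    have h2 : g' * (g'⁻¹ * a * g') * g'⁻¹ = a := by group
    rw [h2] at h1
    rw [← h1]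
    show U.toC (g'⁻¹ * a * g') = _
    rw [map_mul, map_mul, map_inv]
  have hUl : ∀ i, Cj (U.toC (loop i)) (loop i) := by
    intro i
    rw [hUapp]
    have e1 : Cj (s.toCinv (loop i)) (loop (tt i)) := st' i
    have e2 : Cj (q.f' (s.toCinv (loop i))) (ppow (loop (tt i)) ((lamUnit⁻¹ : Zhatˣ) : Zhat)) :=
      (e1.map q.f').trans ⟨_, q.hf' (tt i)⟩
    have e3 : Cj (s.toC (q.f' (s.toCinv (loop i))))
        (ppow (loop i) ((lamUnit⁻¹ : Zhatˣ) : Zhat)) := by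
      refine (e2.map s.toC).trans ?_
      rw [map_ppow]
      have h4 : Cj (s.toC (loop (tt i))) (loop i) := by
        have h5 := st (tt i)
        rw [tt_tt] at h5
        exact h5
      exact h4.pow _
    refine (e3.map q.f).trans ?_
    rw [map_ppow]
    have h6 : Cj (q.f (loop i)) (ppow (loop i) (lamUnit : Zhat)) := ⟨_, q.hf i⟩
    have h7 := h6.pow ((lamUnit⁻¹ : Zhatˣ) : Zhat)
    rw [ppow_unit_inv] at h7
    exact h7
  refine hbad ⟨W, hWbar, fun i => ?_, ?_⟩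
  · rw [Pool.Agent.Helper75.Basic.ppow_one, hWU]
    refine Cj.trans ⟨(U.toC g')⁻¹, ?_⟩ (hUl i)
    rw [inv_inv]
  · set e0 := emb m (p.c 0) with he0
    set e1 := emb m (p.c (0 : Fin (m + 1)).succ) with he1
    set gg := q.f (s.toC (q.f' e1)) with hgg
    refine ⟨(U.toC g')⁻¹ * gg⁻¹ * e0, fun a => ?_⟩
    have k1 : q.f' (jC m (β a)) = (q.f' e1)⁻¹ * jC m a * q.f' e1 := by
      have h1 : jC m (β a) = e1⁻¹ * q.f (jC m a) * e1 := by
        rw [qC]; group
      rw [h1, map_mul, map_mul, map_inv, q.h2]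
    have k2 : U.toC (jB m (β a)) = gg⁻¹ * (e0 * jB m (α a) * e0⁻¹) * gg := by
      rw [hUapp]
      have h1 : s.toCinv (jB m (β a)) = jC m (β a) := sB _
      have h2 : s.toC (jC m a) = jB m a := sC _
      rw [h1, k1, map_mul s.toC, map_mul s.toC, map_inv s.toC, h2, map_mul q.f, map_mul q.f,
        map_inv q.f, qB]
    show W.toFun (jB m (β a)) = (U.toC g')⁻¹ * gg⁻¹ * e0 * jB m (α a) *
      ((U.toC g')⁻¹ * gg⁻¹ * e0)⁻¹
    rw [hWU, k2]
    group

end Pool.Agent.H26.LG
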