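import Pool.Agent.H26.LG.Api

set_option autoImplicit false

/-! Filling in the last puncture. -/

namespace Pool.Agent.H26.LG

open Pool.Agent.Helper75.Defs Pool.Agent.Helper75.F2Defs Pool.Agent.Helper75.Basic
  Pool.Agent.Helper75.F2Lemmas Pool.Agent.Helper75.LacDefs

variable {n : ℕ}

lemma ofFn_prod_succ' {G : Type} [Group G] (f : Fin (n + 1) → G) :
    (List.ofFn f).prod = (List.ofFn fun i : Fin n => f i.castSucc).prod * f (Fin.last n) := by
  rw [List.ofFn_succ', List.concat_eq_append, List.prod_append, List.prod_singleton]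

lemma exists_kd : ∃ f : SurfGroup 0 (n + 1) →* SurfGroup 0 n,
    (∀ i : Fin n, f (dl i.castSucc) = dl i) ∧ f (dl (Fin.last n)) = 1 := by
  obtain ⟨f, hf⟩ := exists_disc (n := n + 1) (Q := SurfGroup 0 n)
    (fun i => Fin.lastCases 1 (fun j => dl j) i) (by
      rw [ofFn_prod_succ']
      simp only [Fin.lastCases_castSucc, Fin.lastCases_last]
      rw [dl_prod, one_mul])
  exact ⟨f, fun i => by rw [hf, Fin.lastCases_castSucc], by rw [hf, Fin.lastCases_last]⟩

/-- filling in the last puncture, discrete version -/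
noncomputable def kd : SurfGroup 0 (n + 1) →* SurfGroup 0 n := exists_kd.choose
lemma kd_castSucc (i : Fin n) : kd (dl i.castSucc) = dl i := exists_kd.choose_spec.1 i
lemma kd_last : kd (dl (Fin.last n)) = 1 := exists_kd.choose_spec.2

lemma kd_surjective : Function.Surjective (kd : SurfGroup 0 (n + 1) →* SurfGroup 0 n) := by
  have h1 : Subgroup.closure (Set.range (PresentedGroup.of (rels := {relator 0 n}))) = ⊤ :=
    PresentedGroup.closure_range_of _
  have h3 : Subgroup.closure (Set.range (PresentedGroup.of (rels := {relator 0 n}))) ≤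
      (show Subgroup (PresentedGroup {relator 0 n}) from
        (kd : SurfGroup 0 (n + 1) →* SurfGroup 0 n).range) := by
    refine (Subgroup.closure_le _).2 ?_
    rintro _ ⟨((x | x) | i), rfl⟩
    · exact x.elim0
    · exact x.elim0
    · exact ⟨dl i.castSucc, kd_castSucc i⟩
  rw [h1] at h3
  exact fun x => h3 (show x ∈ (⊤ : Subgroup (PresentedGroup {relator 0 n})) from trivial)

/-- filling in the last puncture -/
noncomputable def kp : PiHat 0 (n + 1) →ₜ* PiHat 0 n :=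
  (exists_lift (Q := PiHat 0 n) ((eta (SurfGroup 0 n)).comp kd)).choose
lemma kp_eta (g : SurfGroup 0 (n + 1)) : kp (eta _ g) = eta (SurfGroup 0 n) (kd g) :=
  (exists_lift (Q := PiHat 0 n) ((eta (SurfGroup 0 n)).comp kd)).choose_spec g

lemma kp_castSucc (i : Fin n) : kp (loop i.castSucc : PiHat 0 (n + 1)) = loop i := by
  rw [loop_eq, kp_eta, kd_castSucc, loop_eq]
lemma kp_last : kp (loop (Fin.last n) : PiHat 0 (n + 1)) = 1 := by
  rw [loop_eq, kp_eta, kd_last, map_one]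

lemma kp_surjective : Function.Surjective (kp : PiHat 0 (n + 1) →ₜ* PiHat 0 n) := by
  have h1 : IsClosed (Set.range (kp : PiHat 0 (n + 1) →ₜ* PiHat 0 n)) :=
    (isCompact_range kp.continuous_toFun).isClosed
  have h2 : Dense (Set.range (kp : PiHat 0 (n + 1) →ₜ* PiHat 0 n)) := by
    apply (denseRange_eta (SurfGroup 0 n)).mono
    rintro _ ⟨g, rfl⟩
    obtain ⟨g', rfl⟩ := kd_surjective g
    exact ⟨eta _ g', kp_eta g'⟩
  rw [← Set.range_eq_univ, ← h1.closure_eq, h2.closure_eq]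

/-- an endomorphism which preserves the class of the last loop descends -/
lemma exists_ind (φ : PiHat 0 (n + 1) →ₜ* PiHat 0 (n + 1))
    (h : kp (φ (loop (Fin.last n))) = (1 : PiHat 0 n)) :
    ∃ ψ : PiHat 0 n →ₜ* PiHat 0 n, ∀ a, ψ (kp a) = kp (φ a) := by
  obtain ⟨ψ, hψ⟩ := P_lift (n := n) (Q := PiHat 0 n) (fun i => kp (φ (loop i.castSucc))) (by
    have h1 := congrArg (fun x => (kp : PiHat 0 (n + 1) →ₜ* PiHat 0 n) (φ x))
      (loop_prod (n := n + 1))
    simp only [map_one] at h1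
    rw [map_list_prod, map_list_prod, List.map_ofFn, List.map_ofFn, ofFn_prod_succ'] at h1
    simp only [Function.comp_apply, h, mul_one] at h1
    exact h1)
  refine ⟨ψ, fun a => ?_⟩
  have : ψ.comp kp = (kp : PiHat 0 (n + 1) →ₜ* PiHat 0 n).comp φ := by
    apply P_ext
    intro i
    refine Fin.lastCases ?_ (fun j => ?_) i
    · show ψ (kp (loop (Fin.last n))) = kp (φ (loop (Fin.last n)))
      rw [h, kp_last, map_one]
    · show ψ (kp (loop j.castSucc)) = kp (φ (loop j.castSucc))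
      rw [kp_castSucc, hψ]
  exact DFunLike.congr_fun this a

/-- all loops go to conjugates of their `μ`-th powers -/
def PureWith (μ : Zhat) (f : PiHat 0 n → PiHat 0 n) : Prop :=
  ∀ i, Cj (f (loop i)) (ppow (loop i) μ)

lemma PureWith.lac {μ : Zhat} {f : PiHat 0 n → PiHat 0 n} (h : PureWith μ f) : LacWith μ f := by
  choose c hc using h
  exact ⟨1, c, hc⟩

lemma kp_pure {μ : Zhat} {f : PiHat 0 (n + 1) → PiHat 0 (n + 1)} (h : PureWith μ f) :
    kp (f (loop (Fin.last n))) = (1 : PiHat 0 n) := by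
  obtain ⟨c, hc⟩ := h (Fin.last n)
  rw [hc, map_mul, map_mul, map_inv, map_ppow, kp_last,
    Pool.Agent.Helper75.FourMain.ppow_one_left, mul_one, mul_inv_cancel]

lemma PureWith.inv {μ : Zhatˣ} {φ : AutLac 0 n} (h : PureWith (μ : Zhat) φ.toFun) :
    PureWith ((μ⁻¹ : Zhatˣ) : Zhat) φ.invFun := by
  intro i
  obtain ⟨c, hc⟩ := h i
  have h1 : φ.toC (φ.invFun c⁻¹ * ppow (loop i) ((μ⁻¹ : Zhatˣ) : Zhat) * (φ.invFun c⁻¹)⁻¹) =
      loop i := by
    have h2 : φ.toC (loop i) = c * ppow (loop i) μ * c⁻¹ := hc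
    have h3 : φ.toC (φ.invFun c⁻¹) = c⁻¹ := φ.right_inv _
    rw [map_mul, map_mul, map_inv, map_ppow, h2, h3, ppow_conj,
      ← Pool.Agent.Helper75.Basic.ppow_mul, Units.mul_inv, Pool.Agent.Helper75.Basic.ppow_one]
    group
  refine ⟨φ.invFun c⁻¹, ?_⟩
  calc φ.invFun (loop i) = φ.invFun (φ.toC (φ.invFun c⁻¹ * ppow (loop i) ((μ⁻¹ : Zhatˣ) : Zhat) *
        (φ.invFun c⁻¹)⁻¹)) := by rw [h1]
    _ = _ := φ.left_inv _

/-- the automorphism induced after filling in the last puncture -/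
lemma exists_indAut {μ : Zhatˣ} (φ : AutLac 0 (n + 1)) (h : PureWith (μ : Zhat) φ.toFun) :
    ∃ ψ : AutLac 0 n, (∀ a, ψ.toFun (kp a) = kp (φ.toFun a)) ∧
      (∀ a, ψ.invFun (kp a) = kp (φ.invFun a)) ∧ PureWith (μ : Zhat) ψ.toFun := by
  obtain ⟨ψ, hψ⟩ := exists_ind φ.toC (kp_pure h)
  obtain ⟨ψ', hψ'⟩ := exists_ind φ.toCinv (kp_pure h.inv)
  have hp : PureWith (μ : Zhat) ψ := by
    intro i
    obtain ⟨c, hc⟩ := h i.castSucc
    refine ⟨kp c, ?_⟩
    have h1 : ψ (loop i) = kp (φ.toC (loop i.castSucc)) := by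
      rw [← hψ, kp_castSucc]
    have h2 : φ.toC (loop i.castSucc) = _ := hc
    rw [h1, h2, map_mul, map_mul, map_inv, map_ppow, kp_castSucc]
  refine ⟨{ toFun := ψ
            invFun := ψ'
            left_inv := ?_
            right_inv := ?_
            map_mul := map_mul ψ
            continuous_toFun := ψ.continuous_toFun
            continuous_invFun := ψ'.continuous_toFun
            lac := ⟨μ, isUnitZ_unit _, hp.lac⟩ }, hψ, hψ', hp⟩
  · intro a
    obtain ⟨b, rfl⟩ := kp_surjective a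
    rw [hψ, hψ']
    exact congrArg _ (φ.left_inv b)
  · intro a
    obtain ⟨b, rfl⟩ := kp_surjective a
    rw [hψ', hψ]
    exact congrArg _ (φ.right_inv b)

lemma isDisc_ind {φ : AutLac 0 (n + 1)} {ψ : AutLac 0 n}
    (h1 : ∀ a, ψ.toFun (kp a) = kp (φ.toFun a)) (h2 : ∀ a, ψ.invFun (kp a) = kp (φ.invFun a))
    (hφ : IsDisc φ) : IsDisc ψ := by
  have key : ∀ (f : PiHat 0 (n + 1) → PiHat 0 (n + 1)) (g : PiHat 0 n → PiHat 0 n),
      (∀ a, g (kp a) = kp (f a)) → f '' Set.range (eta _) = Set.range (eta _) →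
      ∀ x, ∃ y, g (eta (SurfGroup 0 n) x) = eta (SurfGroup 0 n) y := by
    intro f g hfg hf x
    obtain ⟨x', rfl⟩ := kd_surjective x
    have h3 : f (eta _ x') ∈ Set.range (eta (SurfGroup 0 (n + 1))) := by
      rw [← hf]
      exact ⟨_, ⟨x', rfl⟩, rfl⟩
    obtain ⟨y', hy'⟩ := h3
    refine ⟨kd y', ?_⟩
    rw [← kp_eta, hfg, ← hy', kp_eta]
  have k1 := key _ _ h1 hφ
  have k2 := key _ _ h2 hφ.inv
  apply Set.Subset.antisymm
  · rintro _ ⟨_, ⟨x, rfl⟩, rfl⟩
    obtain ⟨y, hy⟩ := k1 x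
    exact ⟨y, hy.symm⟩
  · rintro _ ⟨x, rfl⟩
    obtain ⟨y, hy⟩ := k2 x
    refine ⟨eta _ y, ⟨y, rfl⟩, ?_⟩
    rw [← hy]
    exact ψ.right_inv _

end Pool.Agent.H26.LG
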