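import Pool.Agent.H26.LG.Split

set_option autoImplicit false

/-! The plus-part is not normal for any type `(0, n)`, `n ≥ 4`. -/

namespace Pool.Agent.H26.LG

open Pool.Agent.Helper75.Defs Pool.Agent.Helper75.F2Defs Pool.Agent.Helper75.Basic
  Pool.Agent.Helper75.F2Lemmas Pool.Agent.Helper75.LacDefs Pool.Agent.Helper75.Core
  Pool.Agent.Helper75.Unit3

/-! ### existence of pure automorphisms -/

lemma ppow_unit_inv {G : Type} [Group G] [TopologicalSpace G] [IsTopologicalGroup G]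
    [CompactSpace G] [TotallyDisconnectedSpace G] (a : G) (l : Zhatˣ) :
    ppow (ppow a (l : Zhat)) ((l⁻¹ : Zhatˣ) : Zhat) = a := by
  rw [← Pool.Agent.Helper75.Basic.ppow_mul, Units.mul_inv, Pool.Agent.Helper75.Basic.ppow_one]

lemma ppow_inv_unit {G : Type} [Group G] [TopologicalSpace G] [IsTopologicalGroup G]
    [CompactSpace G] [TotallyDisconnectedSpace G] (a : G) (l : Zhatˣ) :
    ppow (ppow a ((l⁻¹ : Zhatˣ) : Zhat)) (l : Zhat) = a := by
  rw [← Pool.Agent.Helper75.Basic.ppow_mul, Units.inv_mul, Pool.Agent.Helper75.Basic.ppow_one]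

lemma exists_pw2 (l : Zhat) : ∃ f : PiHat 0 2 →ₜ* PiHat 0 2, ∀ i, f (loop i) = ppow (loop i) l := by
  have h := loop_prod2 (m := 0)
  rw [List.ofFn_zero, List.prod_nil, mul_one] at h
  obtain ⟨f, h0, h1, -⟩ := lift2 (m := 0) (Q := PiHat 0 2) (ppow (loop 0) l)
    (ppow (loop (0 : Fin 1).succ) l) (fun i => i.elim0) (by
      rw [List.ofFn_zero, List.prod_nil, mul_one]
      have h2 : (loop (0 : Fin 1).succ : PiHat 0 2) = (loop 0)⁻¹ := eq_inv_of_mul_eq_one_right h
      rw [h2, ppow_inv, mul_inv_cancel])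
  refine ⟨f, fun i => ?_⟩
  refine Fin.cases h0 (fun i => ?_) i
  refine Fin.cases h1 (fun i => i.elim0) i

lemma exists_PA2 (l : Zhatˣ) : Nonempty (PA 2 l) := by
  obtain ⟨f, hf⟩ := exists_pw2 l
  obtain ⟨f', hf'⟩ := exists_pw2 ((l⁻¹ : Zhatˣ) : Zhat)
  refine ⟨⟨f, f', fun _ => 1, fun i => by rw [hf, one_mul, inv_one, mul_one], fun a => ?_,
    fun a => ?_⟩⟩
  · have : f.comp f' = ContinuousMonoidHom.id _ := by
      apply P_ext
      intro i
      show f (f' (loop i)) = loop i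
      rw [hf', map_ppow, hf, ppow_unit_inv]
    exact DFunLike.congr_fun this a
  · have : f'.comp f = ContinuousMonoidHom.id _ := by
      apply P_ext
      intro i
      show f' (f (loop i)) = loop i
      rw [hf, map_ppow, hf', ppow_inv_unit]
    exact DFunLike.congr_fun this a

lemma jA1_Y : jA 1 Y = loop (0 : Fin 2).succ := by
  rw [Fin.succ_zero_eq_one]; exact jA_Y 1

lemma loop3_two : (loop (0 : Fin 1).succ.succ : PiHat 0 3) = (jA 1 (X * Y))⁻¹ := by
  have h := loop_prod2 (m := 1)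
  rw [List.ofFn_succ, List.ofFn_zero, List.prod_cons, List.prod_nil, mul_one] at h
  rw [map_mul, jA_X, jA1_Y]
  exact eq_inv_of_mul_eq_one_right h

lemma exists_pw3 (α : F2 →ₜ* F2) (l : Zhat) (hα : α (X * Y) = ppow (X * Y) l) :
    ∃ f : PiHat 0 3 →ₜ* PiHat 0 3, (∀ w, f (jA 1 w) = jA 1 (α w)) ∧
      f (loop (0 : Fin 1).succ.succ) = ppow (loop (0 : Fin 1).succ.succ) l := by
  obtain ⟨f, h0, h1, h2⟩ := lift2 (m := 1) (Q := PiHat 0 3) (jA 1 (α X)) (jA 1 (α Y))
    (fun _ => ppow (loop (0 : Fin 1).succ.succ) l) (by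
      rw [List.ofFn_succ, List.ofFn_zero, List.prod_cons, List.prod_nil, mul_one, ← map_mul,
        ← map_mul, hα, map_ppow, loop3_two, ppow_inv, mul_inv_cancel])
  refine ⟨f, fun w => ?_, h2 0⟩
  have : f.comp (jA 1) = (jA 1).comp α := by
    apply hom_ext_XY
    · show f (jA 1 X) = jA 1 (α X)
      rw [jA_X]; exact h0
    · show f (jA 1 Y) = jA 1 (α Y)
      rw [jA1_Y]; exact h1
  exact DFunLike.congr_fun this w

lemma P3_ext {Q : Type} [Group Q] [TopologicalSpace Q] [T2Space Q] {f g : PiHat 0 3 →ₜ* Q}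
    (h : ∀ w, f (jA 1 w) = g (jA 1 w))
    (h2 : f (loop (0 : Fin 1).succ.succ) = g (loop (0 : Fin 1).succ.succ)) : f = g := by
  apply P_ext
  intro i
  refine Fin.cases ?_ (fun i => ?_) i
  · have h3 : (loop (0 : Fin 3) : PiHat 0 3) = jA 1 X := (jA_X 1).symm
    rw [h3]; exact h _
  refine Fin.cases ?_ (fun i => ?_) i
  · rw [← jA1_Y]; exact h _
  refine Fin.cases ?_ (fun i => i.elim0) i
  exact h2

lemma exists_PA3 (l : Zhatˣ) : Nonempty (PA 3 l) := by
  obtain ⟨α, hα⟩ := exists_Au l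
  obtain ⟨α', a1, a2⟩ := Pool.Agent.Helper75.Four.exists_inverse α hα.bij
  obtain ⟨f, hf, f2⟩ := exists_pw3 α l hα.hXY
  obtain ⟨f', hf', f2'⟩ := exists_pw3 α' ((l⁻¹ : Zhatˣ) : Zhat)
    (Pool.Agent.Helper75.Four.inverse_XY α α' l hα.hXY a2)
  have hp : ∀ i, Cj (f (loop i)) (ppow (loop i) l) := by
    intro i
    refine Fin.cases ?_ (fun i => ?_) i
    · have h3 : (loop (0 : Fin 3) : PiHat 0 3) = jA 1 X := (jA_X 1).symm
      rw [h3, hf, ← map_ppow]
      exact hα.hX.map _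
    refine Fin.cases ?_ (fun i => ?_) i
    · rw [← jA1_Y, hf, ← map_ppow]
      exact hα.hY.map _
    refine Fin.cases ?_ (fun i => i.elim0) i
    rw [f2]
    exact Cj.refl _
  choose c hc using hp
  refine ⟨⟨f, f', c, hc, fun a => ?_, fun a => ?_⟩⟩
  · have : f.comp f' = ContinuousMonoidHom.id _ := by
      apply P3_ext
      · intro w
        show f (f' (jA 1 w)) = jA 1 w
        rw [hf', hf, a1]
      · show f (f' (loop _)) = loop _
        rw [f2', map_ppow, f2, ppow_unit_inv]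
    exact DFunLike.congr_fun this a
  · have : f'.comp f = ContinuousMonoidHom.id _ := by
      apply P3_ext
      · intro w
        show f' (f (jA 1 w)) = jA 1 w
        rw [hf, hf', a2]
      · show f' (f (loop _)) = loop _
        rw [f2, map_ppow, f2', ppow_inv_unit]
    exact DFunLike.congr_fun this a

lemma exists_PA (l : Zhatˣ) : ∀ m : ℕ, Nonempty (PA (m + 2) l)
  | 0 => exists_PA2 l
  | 1 => exists_PA3 l
  | m + 2 => by
    obtain ⟨p⟩ := exists_PA l m
    obtain ⟨α, hα⟩ := exists_Au l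
    obtain ⟨q, -, -⟩ := exists_split p hα hα
    exact ⟨q⟩

/-! ### exchanging two pairs of punctures -/

variable {m : ℕ}

/-- the permutation `(0 2)(1 3)` -/
def tt : Fin (m + 4) → Fin (m + 4) :=
  c4 (0 : Fin (m + 2)).succ.succ (0 : Fin (m + 1)).succ.succ.succ 0 (0 : Fin (m + 3)).succ
    fun i => i.succ.succ.succ.succ

lemma tt_tt (i : Fin (m + 4)) : tt (tt i) = i := by
  refine Fin.cases rfl (fun i => ?_) i
  refine Fin.cases rfl (fun i => ?_) i
  refine Fin.cases rfl (fun i => ?_) i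
  refine Fin.cases rfl (fun i => ?_) i
  rfl

/-- the permutation `(0 2)(1 3)` -/
def tp : Equiv.Perm (Fin (m + 4)) := ⟨tt, tt, tt_tt, tt_tt⟩

lemma dl_prod4 : (dl 0 : SurfGroup 0 (m + 4)) * dl (0 : Fin (m + 3)).succ *
    dl (0 : Fin (m + 2)).succ.succ * dl (0 : Fin (m + 1)).succ.succ.succ *
    (List.ofFn fun i : Fin m => (dl i.succ.succ.succ.succ : SurfGroup 0 (m + 4))).prod = 1 := by
  rw [← prod4 (fun i => (dl i : SurfGroup 0 (m + 4)))]
  exact dl_prod

lemma disc4 {Q : Type} [Group Q] (a b c d : Q) (r : Fin m → Q)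
    (h : a * b * c * d * (List.ofFn r).prod = 1) :
    ∃ f : SurfGroup 0 (m + 4) →* Q, f (dl 0) = a ∧ f (dl (0 : Fin (m + 3)).succ) = b ∧
      f (dl (0 : Fin (m + 2)).succ.succ) = c ∧ f (dl (0 : Fin (m + 1)).succ.succ.succ) = d ∧
      ∀ i : Fin m, f (dl i.succ.succ.succ.succ) = r i := by
  obtain ⟨f, hf⟩ := exists_disc (n := m + 4) (c4 a b c d r) (by rw [prod4]; exact h)
  exact ⟨f, hf _, hf _, hf _, hf _, fun i => hf _⟩

lemma disc_ext4 {Q : Type} [Group Q] {f g : SurfGroup 0 (m + 4) →* Q} (h0 : f (dl 0) = g (dl 0))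
    (h1 : f (dl (0 : Fin (m + 3)).succ) = g (dl (0 : Fin (m + 3)).succ))
    (h2 : f (dl (0 : Fin (m + 2)).succ.succ) = g (dl (0 : Fin (m + 2)).succ.succ))
    (h3 : f (dl (0 : Fin (m + 1)).succ.succ.succ) = g (dl (0 : Fin (m + 1)).succ.succ.succ))
    (h4 : ∀ i : Fin m, f (dl i.succ.succ.succ.succ) = g (dl i.succ.succ.succ.succ)) : f = g := by
  apply disc_ext
  intro i
  refine Fin.cases h0 (fun i => ?_) i
  refine Fin.cases h1 (fun i => ?_) i
  refine Fin.cases h2 (fun i => ?_) i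
  refine Fin.cases h3 (fun i => ?_) i
  exact h4 i

/-- the half twist exchanging the pairs, as a discrete automorphism -/
lemma exists_twist (m : ℕ) : ∃ f g : SurfGroup 0 (m + 4) →* SurfGroup 0 (m + 4),
    (∀ a, f (g a) = a) ∧ (∀ a, g (f a) = a) ∧ (∀ i, Cj (f (dl i)) (dl (tt i))) ∧
    (∀ i, Cj (g (dl i)) (dl (tt i))) ∧
    g (dl 0) = dl (0 : Fin (m + 2)).succ.succ ∧
    g (dl (0 : Fin (m + 3)).succ) = dl (0 : Fin (m + 1)).succ.succ.succ ∧
    f (dl (0 : Fin (m + 2)).succ.succ) = dl 0 ∧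
    f (dl (0 : Fin (m + 1)).succ.succ.succ) = dl (0 : Fin (m + 3)).succ := by
  set a : SurfGroup 0 (m + 4) := dl 0 with ha
  set b : SurfGroup 0 (m + 4) := dl (0 : Fin (m + 3)).succ with hb
  set c : SurfGroup 0 (m + 4) := dl (0 : Fin (m + 2)).succ.succ with hc
  set d : SurfGroup 0 (m + 4) := dl (0 : Fin (m + 1)).succ.succ.succ with hd
  have hp : a * b * c * d *
      (List.ofFn fun i : Fin m => (dl i.succ.succ.succ.succ : SurfGroup 0 (m + 4))).prod = 1 :=
    dl_prod4
  obtain ⟨f, f0, f1, f2, f3, f4⟩ := disc4 (m := m) (a * b * c * (a * b)⁻¹) (a * b * d * (a * b)⁻¹)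
    a b (fun i => (dl i.succ.succ.succ.succ : SurfGroup 0 (m + 4))) (by
      rw [← hp]; group)
  obtain ⟨g, g0, g1, g2, g3, g4⟩ := disc4 (m := m) c d ((c * d)⁻¹ * a * (c * d))
    ((c * d)⁻¹ * b * (c * d)) (fun i => (dl i.succ.succ.succ.succ : SurfGroup 0 (m + 4))) (by
      rw [← hp]; group)
  rw [← ha] at f0 g0
  rw [← hb] at f1 g1
  rw [← hc] at f2 g2
  rw [← hd] at f3 g3
  refine ⟨f, g, fun x => ?_, fun x => ?_, fun i => ?_, fun i => ?_, g0, g1, f2, f3⟩
  · have : f.comp g = MonoidHom.id _ := by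
      apply disc_ext4
      · show f (g a) = a
        rw [g0, f2]
      · show f (g b) = b
        rw [g1, f3]
      · show f (g c) = c
        rw [g2, map_mul, map_mul, map_inv, map_mul, f0, f2, f3]; group
      · show f (g d) = d
        rw [g3, map_mul, map_mul, map_inv, map_mul, f1, f2, f3]; group
      · intro i
        show f (g _) = dl _
        rw [g4, f4]
    exact DFunLike.congr_fun this x
  · have : g.comp f = MonoidHom.id _ := by
      apply disc_ext4
      · show g (f a) = a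
        rw [f0, map_mul, map_mul, map_inv, map_mul, g0, g1, g2]; group
      · show g (f b) = b
        rw [f1, map_mul, map_mul, map_inv, map_mul, g0, g1, g3]; group
      · show g (f c) = c
        rw [f2, g0]
      · show g (f d) = d
        rw [f3, g1]
      · intro i
        show g (f _) = dl _
        rw [f4, g4]
    exact DFunLike.congr_fun this x
  · refine Fin.cases ?_ (fun i => ?_) i
    · exact ⟨_, f0⟩
    refine Fin.cases ?_ (fun i => ?_) i
    · exact ⟨_, f1⟩
    refine Fin.cases ?_ (fun i => ?_) i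
    · exact ⟨1, by show f c = 1 * a * 1⁻¹; rw [f2]; group⟩
    refine Fin.cases ?_ (fun i => ?_) i
    · exact ⟨1, by show f d = 1 * b * 1⁻¹; rw [f3]; group⟩
    · exact ⟨1, by show f _ = 1 * dl i.succ.succ.succ.succ * 1⁻¹; rw [f4]; group⟩
  · refine Fin.cases ?_ (fun i => ?_) i
    · exact ⟨1, by show g a = 1 * c * 1⁻¹; rw [g0]; group⟩
    refine Fin.cases ?_ (fun i => ?_) i
    · exact ⟨1, by show g b = 1 * d * 1⁻¹; rw [g1]; group⟩
    refine Fin.cases ?_ (fun i => ?_) i
    · exact ⟨(c * d)⁻¹, by show g c = (c * d)⁻¹ * a * (c * d)⁻¹⁻¹; rw [g2]; group⟩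
    refine Fin.cases ?_ (fun i => ?_) i
    · exact ⟨(c * d)⁻¹, by show g d = (c * d)⁻¹ * b * (c * d)⁻¹⁻¹; rw [g3]; group⟩
    · exact ⟨1, by show g _ = 1 * dl i.succ.succ.succ.succ * 1⁻¹; rw [g4]; group⟩

/-- the half twist -/
lemma exists_twistL (m : ℕ) : ∃ s : AutLac 0 (m + 4), IsDisc s ∧ LacOne s.toFun ∧
    (∀ i, Cj (s.toFun (loop i)) (loop (tt i))) ∧ (∀ i, Cj (s.invFun (loop i)) (loop (tt i))) ∧
    (∀ w, s.toFun (jC m w) = jB m w) ∧ ∀ w, s.invFun (jB m w) = jC m w := by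
  obtain ⟨f, g, h1, h2, h3, h4, g0, g1, f2, f3⟩ := exists_twist m
  obtain ⟨φ, hφ⟩ := exists_lift (Q := PiHat 0 (m + 4)) ((eta (SurfGroup 0 (m + 4))).comp f)
  obtain ⟨ψ, hψ⟩ := exists_lift (Q := PiHat 0 (m + 4)) ((eta (SurfGroup 0 (m + 4))).comp g)
  have k1 : ∀ a, φ (ψ a) = a := by
    have : φ.comp ψ = ContinuousMonoidHom.id _ := by
      apply hom_ext
      intro x
      show φ (ψ (eta _ x)) = eta _ x
      rw [hψ]
      show φ (eta _ (g x)) = eta _ x
      rw [hφ]
      show eta _ (f (g x)) = eta _ x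
      rw [h1]
    exact fun a => DFunLike.congr_fun this a
  have k2 : ∀ a, ψ (φ a) = a := by
    have : ψ.comp φ = ContinuousMonoidHom.id _ := by
      apply hom_ext
      intro x
      show ψ (φ (eta _ x)) = eta _ x
      rw [hφ]
      show ψ (eta _ (f x)) = eta _ x
      rw [hψ]
      show eta _ (g (f x)) = eta _ x
      rw [h2]
    exact fun a => DFunLike.congr_fun this a
  have k3 : ∀ i, Cj (φ (loop i)) (loop (tt i)) := by
    intro i
    rw [loop_eq, hφ]
    exact (h3 i).map (eta (SurfGroup 0 (m + 4)))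
  have k4 : ∀ i, Cj (ψ (loop i)) (loop (tt i)) := by
    intro i
    rw [loop_eq, hψ]
    exact (h4 i).map (eta (SurfGroup 0 (m + 4)))
  have k5 : LacOne φ := by
    choose c hc using k3
    exact ⟨tp, c, hc⟩
  refine ⟨{ toFun := φ
            invFun := ψ
            left_inv := k2
            right_inv := k1
            map_mul := map_mul φ
            continuous_toFun := φ.continuous_toFun
            continuous_invFun := ψ.continuous_toFun
            lac := ⟨1, isUnitZ_unit 1, k5.with⟩ }, ?_, k5, k3, k4, ?_, ?_⟩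
  · apply Set.Subset.antisymm
    · rintro _ ⟨_, ⟨x, rfl⟩, rfl⟩
      exact ⟨f x, (hφ x).symm⟩
    · rintro _ ⟨x, rfl⟩
      exact ⟨ψ (eta _ x), ⟨g x, (hψ x).symm⟩, k1 _⟩
  · have : φ.comp (jC m) = jB m := by
      apply hom_ext_XY
      · show φ (jC m X) = jB m X
        rw [jC_X, jB_X, loop_eq, hφ]
        show eta _ (f _) = _
        rw [f2]; rfl
      · show φ (jC m Y) = jB m Y
        rw [jC_Y, jB_Y, loop_eq, hφ]
        show eta _ (f _) = _
        rw [f3]; rfl
    exact fun w => DFunLike.congr_fun this w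
  · have : ψ.comp (jB m) = jC m := by
      apply hom_ext_XY
      · show ψ (jB m X) = jC m X
        rw [jC_X, jB_X, loop_eq, hψ]
        show eta _ (g _) = _
        rw [g0]; rfl
      · show ψ (jB m Y) = jC m Y
        rw [jC_Y, jB_Y, loop_eq, hψ]
        show eta _ (g _) = _
        rw [g1]; rfl
    exact fun w => DFunLike.congr_fun this w

end Pool.Agent.H26.LG
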