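import Pool.Agent.H26.LG.Bad

set_option autoImplicit false

/-! Replacing two punctures by pairs of punctures. -/

namespace Pool.Agent.H26.LG

open Pool.Agent.Helper75.Defs Pool.Agent.Helper75.F2Defs Pool.Agent.Helper75.Basic
  Pool.Agent.Helper75.F2Lemmas Pool.Agent.Helper75.LacDefs

variable {m : ℕ}

lemma prod4 {G : Type} [Group G] (f : Fin (m + 4) → G) : (List.ofFn f).prod =
    f 0 * f (0 : Fin (m + 3)).succ * f (0 : Fin (m + 2)).succ.succ *
      f (0 : Fin (m + 1)).succ.succ.succ *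
      (List.ofFn fun i : Fin m => f i.succ.succ.succ.succ).prod := by
  rw [List.ofFn_succ, List.ofFn_succ, List.ofFn_succ, List.ofFn_succ]
  simp only [List.prod_cons, mul_assoc]

lemma prod2 {G : Type} [Group G] (f : Fin (m + 2) → G) : (List.ofFn f).prod =
    f 0 * f (0 : Fin (m + 1)).succ * (List.ofFn fun i : Fin m => f i.succ.succ).prod := by
  rw [List.ofFn_succ, List.ofFn_succ]
  simp only [List.prod_cons, mul_assoc]

/-- a function on `Fin (m + 4)` -/
def c4 {Q : Type} (a b c d : Q) (r : Fin m → Q) : Fin (m + 4) → Q :=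
  Fin.cons a (Fin.cons b (Fin.cons c (Fin.cons d r)))

lemma lift4 {Q : Type} [Group Q] [TopologicalSpace Q]
    [IsTopologicalGroup Q] [CompactSpace Q] [TotallyDisconnectedSpace Q] (a b c d : Q)
    (r : Fin m → Q) (h : a * b * c * d * (List.ofFn r).prod = 1) :
    ∃ f : PiHat 0 (m + 4) →ₜ* Q, f (loop 0) = a ∧ f (loop (0 : Fin (m + 3)).succ) = b ∧
      f (loop (0 : Fin (m + 2)).succ.succ) = c ∧ f (loop (0 : Fin (m + 1)).succ.succ.succ) = d ∧
      ∀ i : Fin m, f (loop i.succ.succ.succ.succ) = r i := by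
  obtain ⟨f, hf⟩ := P_lift (n := m + 4) (c4 a b c d r) (by rw [prod4]; exact h)
  exact ⟨f, hf _, hf _, hf _, hf _, fun i => hf _⟩

lemma lift2 {Q : Type} [Group Q] [TopologicalSpace Q]
    [IsTopologicalGroup Q] [CompactSpace Q] [TotallyDisconnectedSpace Q] (a b : Q)
    (r : Fin m → Q) (h : a * b * (List.ofFn r).prod = 1) :
    ∃ f : PiHat 0 (m + 2) →ₜ* Q, f (loop 0) = a ∧ f (loop (0 : Fin (m + 1)).succ) = b ∧
      ∀ i : Fin m, f (loop i.succ.succ) = r i := by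
  obtain ⟨f, hf⟩ := P_lift (n := m + 2) (Fin.cons a (Fin.cons b r) : Fin (m + 2) → Q)
    (by rw [prod2]; exact h)
  exact ⟨f, hf _, hf _, fun i => hf _⟩

lemma loop_prod4 : (loop 0 : PiHat 0 (m + 4)) * loop (0 : Fin (m + 3)).succ *
    loop (0 : Fin (m + 2)).succ.succ * loop (0 : Fin (m + 1)).succ.succ.succ *
    (List.ofFn fun i : Fin m => (loop i.succ.succ.succ.succ : PiHat 0 (m + 4))).prod = 1 := by
  rw [← prod4 (fun i => (loop i : PiHat 0 (m + 4)))]
  exact loop_prod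

lemma loop_prod2 : (loop 0 : PiHat 0 (m + 2)) * loop (0 : Fin (m + 1)).succ *
    (List.ofFn fun i : Fin m => (loop i.succ.succ : PiHat 0 (m + 2))).prod = 1 := by
  rw [← prod2 (fun i => (loop i : PiHat 0 (m + 2)))]
  exact loop_prod

lemma exists_emb (m : ℕ) : ∃ e : PiHat 0 (m + 2) →ₜ* PiHat 0 (m + 4),
    e (loop 0) = jB m (X * Y) ∧ e (loop (0 : Fin (m + 1)).succ) = jC m (X * Y) ∧
    ∀ i : Fin m, e (loop i.succ.succ) = loop i.succ.succ.succ.succ :=
  lift2 _ _ _ (by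
    rw [map_mul, map_mul, jB_X, jB_Y, jC_X, jC_Y]
    have h := loop_prod4 (m := m)
    rw [← mul_assoc]
    exact h)

/-- the first puncture is replaced by the first two, the second one by the next two -/
noncomputable def emb (m : ℕ) : PiHat 0 (m + 2) →ₜ* PiHat 0 (m + 4) := (exists_emb m).choose
lemma emb_0 (m : ℕ) : emb m (loop 0) = jB m (X * Y) := (exists_emb m).choose_spec.1
lemma emb_1 (m : ℕ) : emb m (loop (0 : Fin (m + 1)).succ) = jC m (X * Y) :=
  (exists_emb m).choose_spec.2.1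
lemma emb_i (i : Fin m) : emb m (loop i.succ.succ) = loop i.succ.succ.succ.succ :=
  (exists_emb m).choose_spec.2.2 i

lemma Q_ext {Q : Type} [Group Q] [TopologicalSpace Q] [T2Space Q] {f g : PiHat 0 (m + 4) →ₜ* Q}
    (hB : ∀ w, f (jB m w) = g (jB m w)) (hC : ∀ w, f (jC m w) = g (jC m w))
    (hi : ∀ i : Fin m, f (loop i.succ.succ.succ.succ) = g (loop i.succ.succ.succ.succ)) :
    f = g := by
  apply P_ext
  intro i
  refine Fin.cases ?_ (fun i => ?_) i
  · rw [← jB_X]; exact hB _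
  refine Fin.cases ?_ (fun i => ?_) i
  · rw [← jB_Y]; exact hB _
  refine Fin.cases ?_ (fun i => ?_) i
  · rw [← jC_X]; exact hC _
  refine Fin.cases ?_ (fun i => ?_) i
  · rw [← jC_Y]; exact hC _
  exact hi i

lemma assoc5 {G : Type} [Group G] (a b c d e : G) :
    a * b * c * d * e = a * b * (c * d) * e := by group

/-- gluing -/
structure Glue (Ψ : PiHat 0 (m + 2) →ₜ* PiHat 0 (m + 2)) (c d : PiHat 0 (m + 2))
    (α β : F2 →ₜ* F2) (Φ : PiHat 0 (m + 4) →ₜ* PiHat 0 (m + 4)) : Prop where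
  hB : ∀ w, Φ (jB m w) = emb m c * jB m (α w) * (emb m c)⁻¹
  hC : ∀ w, Φ (jC m w) = emb m d * jC m (β w) * (emb m d)⁻¹
  hi : ∀ i : Fin m, Φ (loop i.succ.succ.succ.succ) = emb m (Ψ (loop i.succ.succ))
  he : ∀ a, Φ (emb m a) = emb m (Ψ a)

lemma exists_glue (Ψ : PiHat 0 (m + 2) →ₜ* PiHat 0 (m + 2)) (c d : PiHat 0 (m + 2))
    (α β : F2 →ₜ* F2) (l : Zhat) (h0 : Ψ (loop 0) = c * ppow (loop 0) l * c⁻¹)
    (h1 : Ψ (loop (0 : Fin (m + 1)).succ) = d * ppow (loop (0 : Fin (m + 1)).succ) l * d⁻¹)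
    (hα : α (X * Y) = ppow (X * Y) l) (hβ : β (X * Y) = ppow (X * Y) l) :
    ∃ Φ, Glue Ψ c d α β Φ := by
  have e0 : emb m c * jB m (α X) * (emb m c)⁻¹ * (emb m c * jB m (α Y) * (emb m c)⁻¹) =
      emb m (Ψ (loop 0)) := by
    have : emb m c * jB m (α X) * (emb m c)⁻¹ * (emb m c * jB m (α Y) * (emb m c)⁻¹) =
        emb m c * jB m (α (X * Y)) * (emb m c)⁻¹ := by
      rw [map_mul α, map_mul (jB m)]; group
    rw [this, hα, h0, map_ppow, ← emb_0, map_mul, map_mul, map_inv, map_ppow]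
  have e1 : emb m d * jC m (β X) * (emb m d)⁻¹ * (emb m d * jC m (β Y) * (emb m d)⁻¹) =
      emb m (Ψ (loop (0 : Fin (m + 1)).succ)) := by
    have : emb m d * jC m (β X) * (emb m d)⁻¹ * (emb m d * jC m (β Y) * (emb m d)⁻¹) =
        emb m d * jC m (β (X * Y)) * (emb m d)⁻¹ := by
      rw [map_mul β, map_mul (jC m)]; group
    rw [this, hβ, h1, map_ppow, ← emb_1, map_mul, map_mul, map_inv, map_ppow]
  obtain ⟨Φ, f0, f1, f2, f3, f4⟩ := lift4 (m := m) (Q := PiHat 0 (m + 4))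
    (emb m c * jB m (α X) * (emb m c)⁻¹) (emb m c * jB m (α Y) * (emb m c)⁻¹)
    (emb m d * jC m (β X) * (emb m d)⁻¹) (emb m d * jC m (β Y) * (emb m d)⁻¹)
    (fun i => emb m (Ψ (loop i.succ.succ))) (by
      rw [assoc5, e0, e1, ← map_mul, ← map_mul]
      have h2 : (List.ofFn fun i : Fin m => emb m (Ψ (loop i.succ.succ))).prod =
          emb m (Ψ (List.ofFn fun i : Fin m => (loop i.succ.succ : PiHat 0 (m + 2))).prod) := by
        rw [map_list_prod, map_list_prod, List.map_ofFn, List.map_ofFn]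
        rfl
      rw [h2, ← map_mul, ← map_mul, loop_prod2, map_one, map_one])
  have hB : ∀ w, Φ (jB m w) = emb m c * jB m (α w) * (emb m c)⁻¹ := by
    let ψ : F2 →ₜ* PiHat 0 (m + 4) :=
      ⟨MonoidHom.mk' (fun w => emb m c * jB m (α w) * (emb m c)⁻¹) (fun a b => by
        rw [map_mul α, map_mul (jB m)]; group), by
        have h1 := (jB m).continuous_toFun.comp α.continuous_toFun
        exact (continuous_const.mul h1).mul continuous_const⟩
    have : Φ.comp (jB m) = ψ := by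
      apply hom_ext_XY
      · show Φ (jB m X) = _
        rw [jB_X, f0]; rfl
      · show Φ (jB m Y) = _
        rw [jB_Y, f1]; rfl
    exact fun w => DFunLike.congr_fun this w
  have hC : ∀ w, Φ (jC m w) = emb m d * jC m (β w) * (emb m d)⁻¹ := by
    let ψ : F2 →ₜ* PiHat 0 (m + 4) :=
      ⟨MonoidHom.mk' (fun w => emb m d * jC m (β w) * (emb m d)⁻¹) (fun a b => by
        rw [map_mul β, map_mul (jC m)]; group), by
        have h1 := (jC m).continuous_toFun.comp β.continuous_toFun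
        exact (continuous_const.mul h1).mul continuous_const⟩
    have : Φ.comp (jC m) = ψ := by
      apply hom_ext_XY
      · show Φ (jC m X) = _
        rw [jC_X, f2]; rfl
      · show Φ (jC m Y) = _
        rw [jC_Y, f3]; rfl
    exact fun w => DFunLike.congr_fun this w
  refine ⟨Φ, hB, hC, f4, fun a => ?_⟩
  have : Φ.comp (emb m) = (emb m).comp Ψ := by
    apply P_ext
    intro i
    refine Fin.cases ?_ (fun i => ?_) i
    · show Φ (emb m (loop 0)) = emb m (Ψ (loop 0))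
      rw [emb_0, hB, ← e0, map_mul α, map_mul (jB m)]
      group
    refine Fin.cases ?_ (fun i => ?_) i
    · show Φ (emb m (loop _)) = emb m (Ψ (loop _))
      rw [emb_1, hC, ← e1, map_mul β, map_mul (jC m)]
      group
    · show Φ (emb m (loop _)) = emb m (Ψ (loop _))
      rw [emb_i, f4]
  exact DFunLike.congr_fun this a

lemma Glue.comp {Ψ Ψ' : PiHat 0 (m + 2) →ₜ* PiHat 0 (m + 2)} {c d c' d' : PiHat 0 (m + 2)}
    {α β α' β' : F2 →ₜ* F2} {Φ Φ' : PiHat 0 (m + 4) →ₜ* PiHat 0 (m + 4)}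
    (h : Glue Ψ c d α β Φ) (h' : Glue Ψ' c' d' α' β' Φ') (hΨ : ∀ a, Ψ' (Ψ a) = a)
    (hα : ∀ w, α' (α w) = w) (hβ : ∀ w, β' (β w) = w) (hc : Ψ' c * c' = 1) (hd : Ψ' d * d' = 1)
    (a : PiHat 0 (m + 4)) : Φ' (Φ a) = a := by
  have : Φ'.comp Φ = ContinuousMonoidHom.id _ := by
    apply Q_ext
    · intro w
      show Φ' (Φ (jB m w)) = jB m w
      rw [h.hB, map_mul, map_mul, map_inv, h'.he, h'.hB, hα]
      have h1 : emb m (Ψ' c) * emb m c' = 1 := by rw [← map_mul, hc, map_one]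
      rw [eq_inv_of_mul_eq_one_left h1]
      group
    · intro w
      show Φ' (Φ (jC m w)) = jC m w
      rw [h.hC, map_mul, map_mul, map_inv, h'.he, h'.hC, hβ]
      have h1 : emb m (Ψ' d) * emb m d' = 1 := by rw [← map_mul, hd, map_one]
      rw [eq_inv_of_mul_eq_one_left h1]
      group
    · intro i
      show Φ' (Φ (loop _)) = loop _
      rw [h.hi, h'.he, hΨ, emb_i]
  exact DFunLike.congr_fun this a

/-- an automorphism which sends all loops to conjugates of their `l`-th powers -/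
structure PA (k : ℕ) (l : Zhatˣ) where
  f : PiHat 0 k →ₜ* PiHat 0 k
  f' : PiHat 0 k →ₜ* PiHat 0 k
  c : Fin k → PiHat 0 k
  hf : ∀ i, f (loop i) = c i * ppow (loop i) l * (c i)⁻¹
  h1 : ∀ a, f (f' a) = a
  h2 : ∀ a, f' (f a) = a

lemma PA.hf' {k : ℕ} {l : Zhatˣ} (p : PA k l) (i : Fin k) :
    p.f' (loop i) = (p.f' (p.c i))⁻¹ * ppow (loop i) ((l⁻¹ : Zhatˣ) : Zhat) *
      (p.f' (p.c i))⁻¹⁻¹ := by
  have h3 : p.f ((p.f' (p.c i))⁻¹ * ppow (loop i) ((l⁻¹ : Zhatˣ) : Zhat) *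
      p.f' (p.c i)) = loop i := by
    rw [map_mul, map_mul, map_inv, map_ppow, p.h1, p.hf, ppow_conj,
      ← Pool.Agent.Helper75.Basic.ppow_mul, Units.mul_inv, Pool.Agent.Helper75.Basic.ppow_one]
    group
  rw [inv_inv]
  conv_lhs => rw [← h3]
  exact p.h2 _

/-- an automorphism of the free profinite group of rank two of the right shape -/
structure Au (l : Zhatˣ) (α : F2 →ₜ* F2) : Prop where
  hX : Cj (α X) (ppow X l)
  hY : Cj (α Y) (ppow Y l)
  hXY : α (X * Y) = ppow (X * Y) l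
  bij : Function.Bijective α

lemma exists_Au (l : Zhatˣ) : ∃ α, Au l α := by
  obtain ⟨α, u, v, h1, h2, h3, h4⟩ := Pool.Agent.Helper75.Exist2.exists_auto l
  exact ⟨α, ⟨u, h1⟩, ⟨v, h2⟩, h3, h4⟩

lemma exists_split {l : Zhatˣ} (p : PA (m + 2) l) {α β : F2 →ₜ* F2} (hα : Au l α) (hβ : Au l β) :
    ∃ q : PA (m + 4) l,
      (∀ w, q.f (jB m w) = emb m (p.c 0) * jB m (α w) * (emb m (p.c 0))⁻¹) ∧
      ∀ w, q.f (jC m w) = emb m (p.c (0 : Fin (m + 1)).succ) * jC m (β w) *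
        (emb m (p.c (0 : Fin (m + 1)).succ))⁻¹ := by
  obtain ⟨α', a1, a2⟩ := Pool.Agent.Helper75.Four.exists_inverse α hα.bij
  obtain ⟨β', b1, b2⟩ := Pool.Agent.Helper75.Four.exists_inverse β hβ.bij
  obtain ⟨Φ, hΦ⟩ := exists_glue p.f (p.c 0) (p.c (0 : Fin (m + 1)).succ) α β l (p.hf _) (p.hf _)
    hα.hXY hβ.hXY
  obtain ⟨Φ', hΦ'⟩ := exists_glue p.f' (p.f' (p.c 0))⁻¹ (p.f' (p.c (0 : Fin (m + 1)).succ))⁻¹ α' β'
    ((l⁻¹ : Zhatˣ) : Zhat) (p.hf' _) (p.hf' _)
    (Pool.Agent.Helper75.Four.inverse_XY α α' l hα.hXY a2)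
    (Pool.Agent.Helper75.Four.inverse_XY β β' l hβ.hXY b2)
  have hp : ∀ i, Cj (Φ (loop i)) (ppow (loop i) l) := by
    intro i
    refine Fin.cases ?_ (fun i => ?_) i
    · rw [← jB_X, hΦ.hB]
      refine (Cj.conj _ _).trans ?_
      rw [← map_ppow]
      exact hα.hX.map _
    refine Fin.cases ?_ (fun i => ?_) i
    · rw [← jB_Y, hΦ.hB]
      refine (Cj.conj _ _).trans ?_
      rw [← map_ppow]
      exact hα.hY.map _
    refine Fin.cases ?_ (fun i => ?_) i
    · rw [← jC_X, hΦ.hC]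
      refine (Cj.conj _ _).trans ?_
      rw [← map_ppow]
      exact hβ.hX.map _
    refine Fin.cases ?_ (fun i => ?_) i
    · rw [← jC_Y, hΦ.hC]
      refine (Cj.conj _ _).trans ?_
      rw [← map_ppow]
      exact hβ.hY.map _
    rw [hΦ.hi, p.hf, ← emb_i, ← map_ppow]
    exact (Cj.conj _ _).map _
  choose c hc using hp
  refine ⟨⟨Φ, Φ', c, hc, ?_, ?_⟩, hΦ.hB, hΦ.hC⟩
  · refine hΦ'.comp hΦ p.h1 a1 b1 ?_ ?_
    · rw [map_inv, p.h1, inv_mul_cancel]
    · rw [map_inv, p.h1, inv_mul_cancel]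
  · refine hΦ.comp hΦ' p.h2 a2 b2 ?_ ?_
    · rw [mul_inv_cancel]
    · rw [mul_inv_cancel]

end Pool.Agent.H26.LG
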